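import Pool.Agent.Y826.ZG.Y950.ZZ2

/-! Project Y826/Z, job ZZ: the trivial bound. -/

set_option autoImplicit false

open Finset Filter

namespace Pool.Agent.Y826.ZG.Y950

open Pool.Agent.Y826.Z hiding Cd dl Lc Du SS Soff Hyp Cls
open Pool.Agent.Y826.ZL (Cd dl)
open Pool.Agent.H378R2 (EPhi Phi)

lemma totient_lower {m : ℕ} (hm : Squarefree m) : (m : ℝ) ≤ tau m * (Nat.totient m : ℝ) := by
  have h1 : m.divisors.card = 2 ^ m.primeFactors.card := by
    rw [Nat.card_divisors hm.ne_zero]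
    rw [Finset.prod_congr rfl (g := fun _ => 2), Finset.prod_const]
    intro p hp
    have h2 := hm.natFactorization_le_one p
    have h3 : 0 < m.factorization p :=
      (Nat.prime_of_mem_primeFactors hp).factorization_pos_of_dvd hm.ne_zero
        (Nat.dvd_of_mem_primeFactors hp)
    omega
  have h2 : m = ∏ p ∈ m.primeFactors, p := (Nat.prod_primeFactors_of_squarefree hm).symm
  have h3 : Nat.totient m = ∏ p ∈ m.primeFactors, (p - 1) := by
    rw [Nat.totient_eq_div_primeFactors_mul, ← h2, Nat.div_self hm.ne_zero.bot_lt, one_mul]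
  unfold tau
  have h4 : m ≤ m.divisors.card * Nat.totient m := by
    rw [h1, h3, ← Finset.prod_const, ← Finset.prod_mul_distrib]
    calc m = ∏ p ∈ m.primeFactors, p := h2
      _ ≤ ∏ p ∈ m.primeFactors, 2 * (p - 1) := by
        refine Finset.prod_le_prod' fun p hp => ?_
        have := (Nat.prime_of_mem_primeFactors hp).two_le
        omega
  exact_mod_cast h4

lemma one_div_totient_le {W m : ℕ} (hW : 0 < W) (h : Squarefree (rd W * m)) :
    1 / (Nat.totient (W * m) : ℝ) ≤ tau m / m := by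
  have hc : W.Coprime m := cop_of_sqf h
  have hm : Squarefree m := h.of_mul_right
  have hm0 : (0 : ℝ) < m := by exact_mod_cast hm.ne_zero.bot_lt
  have h1 : (Nat.totient m : ℝ) ≤ Nat.totient (W * m) := by
    rw [Nat.totient_mul hc]
    exact_mod_cast Nat.le_mul_of_pos_left _ (Nat.totient_pos.2 hW)
  have h2 : (0 : ℝ) < Nat.totient m := by exact_mod_cast Nat.totient_pos.2 hm.ne_zero.bot_lt
  rw [div_le_div_iff₀ (by linarith) hm0, one_mul]
  calc (m : ℝ) ≤ tau m * Nat.totient m := totient_lower hm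
    _ ≤ tau m * Nat.totient (W * m) := mul_le_mul_of_nonneg_left h1 (tau_nonneg _)

lemma mass_le {X : ℝ} (hX : 3 ≤ X) :
    ∑ n ∈ Icc 1 ⌊3 * X⌋₊, Phi (n / X) * ArithmeticFunction.vonMangoldt n ≤ X * (6 * Real.log X) := by
  have hX0 : 0 < X := by linarith
  have hL : 0 < Real.log X := Real.log_pos (by linarith)
  have h3 : Real.log (3 * X) ≤ 2 * Real.log X := by
    rw [Real.log_mul (by norm_num) hX0.ne']
    have := Real.log_le_log (by norm_num) hX
    linarith
  calc ∑ n ∈ Icc 1 ⌊3 * X⌋₊, Phi (n / X) * ArithmeticFunction.vonMangoldt n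
      ≤ ∑ n ∈ Icc 1 ⌊3 * X⌋₊, 2 * Real.log X := by
        refine Finset.sum_le_sum fun n hn => ?_
        rw [mem_Icc] at hn
        have hn0 : (0 : ℝ) < n := by exact_mod_cast hn.1
        have hn1 : (n : ℝ) ≤ 3 * X := (Nat.le_floor_iff (by positivity)).1 hn.2
        calc Phi (n / X) * ArithmeticFunction.vonMangoldt n
            ≤ 1 * Real.log n := mul_le_mul (Phi_le_one _) ArithmeticFunction.vonMangoldt_le_log
              ArithmeticFunction.vonMangoldt_nonneg zero_le_one
          _ ≤ 2 * Real.log X := by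
              rw [one_mul]
              exact (Real.log_le_log hn0 hn1).trans h3
    _ = ⌊3 * X⌋₊ * (2 * Real.log X) := by rw [sum_const, nsmul_eq_mul, Nat.card_Icc, Nat.add_sub_cancel]
    _ ≤ (3 * X) * (2 * Real.log X) :=
        mul_le_mul_of_nonneg_right (Nat.floor_le (by positivity)) (by positivity)
    _ = X * (6 * Real.log X) := by ring

lemma EPhi_le (X : ℝ) (Q b : ℕ) : |EPhi X Q b| ≤
    ∑ n ∈ (Icc 1 ⌊3 * X⌋₊).filter (fun n => n ≡ b [MOD Q]),
      Phi (n / X) * ArithmeticFunction.vonMangoldt n +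
    (1 / (Nat.totient Q : ℝ)) * ∑ n ∈ Icc 1 ⌊3 * X⌋₊, Phi (n / X) * ArithmeticFunction.vonMangoldt n := by
  unfold EPhi
  have h1 : 0 ≤ ∑ n ∈ (Icc 1 ⌊3 * X⌋₊).filter (fun n => n ≡ b [MOD Q]),
      Phi (n / X) * ArithmeticFunction.vonMangoldt n :=
    Finset.sum_nonneg fun n _ => mul_nonneg (Phi_nonneg _) ArithmeticFunction.vonMangoldt_nonneg
  have h2 : 0 ≤ (1 / (Nat.totient Q : ℝ)) *
      ∑ n ∈ Icc 1 ⌊3 * X⌋₊, Phi (n / X) * ArithmeticFunction.vonMangoldt n :=
    mul_nonneg (by positivity) (Finset.sum_nonneg fun n _ =>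
      mul_nonneg (Phi_nonneg _) ArithmeticFunction.vonMangoldt_nonneg)
  rw [abs_le]
  constructor <;> linarith

/-- the slopes are not zero -/
lemma slope_ne {K : ℕ} {h : Fin K → ℤ × ℤ} {W b : ℕ} (hyp : Hyp h W b) (j : Fin K) : (h j).1 ≠ 0 := by
  obtain ⟨p, hp1, hp2⟩ := Nat.exists_infinite_primes (W + 1)
  intro h0
  apply hyp.h0 p hp2 (fun hd => by have := Nat.le_of_dvd hyp.wpos hd; omega) j
  rw [h0]
  exact dvd_zero _

theorem triv_bound {K : ℕ} (h : Fin K → ℤ × ℤ) (W b : ℕ) (hyp : Hyp h W b) (C : ℕ) :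
    ∃ C' : ℕ, ∀ᶠ X : ℝ in atTop, ∀ bq, Cls h W b bq → ∀ T : Finset (Fin K → ℕ),
      (∀ q ∈ T, Squarefree (rd W * Pr q) ∧ (Pr q : ℝ) ≤ X) →
      ∑ q ∈ T, tau (Pr q) ^ C * |EPhi X (W * Pr q) (bq q)| ≤ X * (Real.log X) ^ C' := by
  classical
  obtain ⟨C1, X0, hX0, hmom⟩ := moment K h (slope_ne hyp) (C + 1)
  set R : ℕ := 2 ^ (K + C + 1) with hR
  refine ⟨C1 + R + R + 8, ?_⟩
  filter_upwards [eventually_ge_atTop X0, Real.tendsto_log_atTop.eventually_ge_atTop 3] with X hXX hL
  intro bq hbq T hT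
  have hX3 : 3 ≤ X := hX0.trans hXX
  have hXp : 0 < X := by linarith
  obtain ⟨hne, hmo⟩ := hmom X hXX
  set N := ⌊3 * X⌋₊ with hN
  set MM := ∑ n ∈ Icc 1 N, Phi (n / X) * ArithmeticFunction.vonMangoldt n with hMM
  have hMM0 : 0 ≤ MM := Finset.sum_nonneg fun n _ =>
    mul_nonneg (Phi_nonneg _) ArithmeticFunction.vonMangoldt_nonneg
  have hMM1 : MM ≤ X * (6 * Real.log X) := mass_le hX3
  have hlog3 : ∀ n ∈ Icc 1 N, Phi (n / X) * ArithmeticFunction.vonMangoldt n ≤ 2 * Real.log X := by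
    intro n hn
    rw [mem_Icc] at hn
    have hn0 : (0 : ℝ) < n := by exact_mod_cast hn.1
    have hn1 : (n : ℝ) ≤ 3 * X := (Nat.le_floor_iff (by positivity)).1 hn.2
    have h3 : Real.log (3 * X) ≤ 2 * Real.log X := by
      rw [Real.log_mul (by norm_num) hXp.ne']
      have := Real.log_le_log (by norm_num) hX3
      linarith
    calc Phi (n / X) * ArithmeticFunction.vonMangoldt n
        ≤ 1 * Real.log n := mul_le_mul (Phi_le_one _) ArithmeticFunction.vonMangoldt_le_log
          ArithmeticFunction.vonMangoldt_nonneg zero_le_one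
      _ ≤ 2 * Real.log X := by
          rw [one_mul]
          exact (Real.log_le_log hn0 hn1).trans h3
  -- second part
  have hpart2 : ∑ q ∈ T, tau (Pr q) ^ C * ((1 / (Nat.totient (W * Pr q) : ℝ)) * MM) ≤
      (1 + Real.log X) ^ R * (X * (6 * Real.log X)) := by
    have h1 : ∑ q ∈ T, tau (Pr q) ^ C * ((1 / (Nat.totient (W * Pr q) : ℝ)) * MM) ≤
        (∑ q ∈ T, (tau (Pr q) ^ (C + 1) / (Pr q : ℝ))) * MM := by
      rw [Finset.sum_mul]
      refine Finset.sum_le_sum fun q hq => ?_
      rw [← mul_assoc]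
      apply mul_le_mul_of_nonneg_right _ hMM0
      have := one_div_totient_le hyp.wpos (hT q hq).1
      calc tau (Pr q) ^ C * (1 / (Nat.totient (W * Pr q) : ℝ))
          ≤ tau (Pr q) ^ C * (tau (Pr q) / (Pr q : ℝ)) :=
            mul_le_mul_of_nonneg_left this (pow_nonneg (tau_nonneg _) _)
        _ = tau (Pr q) ^ (C + 1) / (Pr q : ℝ) := by rw [pow_succ]; ring
    have h2 : ∑ q ∈ T, (tau (Pr q) ^ (C + 1) / (Pr q : ℝ)) ≤
        ∑ m ∈ Icc 1 ⌊X⌋₊, tau m ^ K * (tau m ^ (C + 1) / (m : ℝ)) := by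
      apply fiber_le T (Icc 1 ⌊X⌋₊) (fun m hm => by rw [mem_Icc] at hm; omega) _
        (fun m => tau m ^ (C + 1) / (m : ℝ))
        (fun m => div_nonneg (pow_nonneg (tau_nonneg _) _) (Nat.cast_nonneg _))
      intro q hq
      rw [mem_Icc]
      have h3 : Pr q ≠ 0 := ((hT q hq).1.of_mul_right).ne_zero
      exact ⟨Nat.one_le_iff_ne_zero.2 h3, Nat.le_floor (hT q hq).2⟩
    have h3 : ∑ m ∈ Icc 1 ⌊X⌋₊, tau m ^ K * (tau m ^ (C + 1) / (m : ℝ)) ≤
        (1 + Real.log X) ^ R := by
      calc ∑ m ∈ Icc 1 ⌊X⌋₊, tau m ^ K * (tau m ^ (C + 1) / (m : ℝ))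
          = ∑ m ∈ Icc 1 ⌊X⌋₊, tau m ^ (K + C + 1) / (m : ℝ) := by
            refine Finset.sum_congr rfl fun m _ => ?_
            rw [mul_div_assoc', ← pow_add]
            rfl
        _ ≤ (1 + Real.log (⌊X⌋₊ : ℝ)) ^ R := W37.RK.sum_card_pow_div (K + C + 1) ⌊X⌋₊
        _ ≤ (1 + Real.log X) ^ R := by
            have h5 : (1 : ℝ) ≤ (⌊X⌋₊ : ℝ) := by
              exact_mod_cast Nat.le_floor (by push_cast; linarith)
            apply pow_le_pow_left₀
            · have := Real.log_nonneg h5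
              linarith
            · have := Real.log_le_log (by linarith) (Nat.floor_le hXp.le)
              linarith
    refine h1.trans ?_
    exact mul_le_mul (h2.trans h3) hMM1 hMM0 (by positivity)
  -- first part
  have hpart1 : ∑ q ∈ T, tau (Pr q) ^ C * ∑ n ∈ (Icc 1 N).filter (fun n => n ≡ bq q [MOD (W * Pr q)]),
      Phi (n / X) * ArithmeticFunction.vonMangoldt n ≤ (2 * Real.log X) * (X * (Real.log X) ^ C1) := by
    have h1 : ∑ q ∈ T, tau (Pr q) ^ C * ∑ n ∈ (Icc 1 N).filter (fun n => n ≡ bq q [MOD (W * Pr q)]),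
        Phi (n / X) * ArithmeticFunction.vonMangoldt n =
        ∑ n ∈ Icc 1 N, (Phi (n / X) * ArithmeticFunction.vonMangoldt n) *
          ∑ q ∈ T.filter (fun q => n ≡ bq q [MOD (W * Pr q)]), tau (Pr q) ^ C := by
      simp only [Finset.sum_filter, Finset.mul_sum]
      rw [Finset.sum_comm]
      refine Finset.sum_congr rfl fun n _ => Finset.sum_congr rfl fun q _ => ?_
      split_ifs <;> ring
    rw [h1]
    calc ∑ n ∈ Icc 1 N, (Phi (n / X) * ArithmeticFunction.vonMangoldt n) *
          ∑ q ∈ T.filter (fun q => n ≡ bq q [MOD (W * Pr q)]), tau (Pr q) ^ C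
        ≤ ∑ n ∈ Icc 1 N, if X < n then (2 * Real.log X) *
            ∏ j, tau (((h j).1 * (n : ℤ) + (h j).2).natAbs) ^ (C + 1) else 0 := by
          refine Finset.sum_le_sum fun n hn => ?_
          split_ifs with hnX
          · apply mul_le_mul (hlog3 n hn) _ (Finset.sum_nonneg fun q _ =>
              pow_nonneg (tau_nonneg _) _) (by positivity)
            apply tuples_le h n (hne n hnX)
            intro q hq
            rw [Finset.mem_filter] at hq
            exact ((hbq q (hT q hq.1).1 n).1 hq.2).2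
          · have : Phi (n / X) = 0 := Phi_zero (by positivity)
              ((div_le_one hXp).2 (not_lt.1 hnX))
            rw [this, zero_mul, zero_mul]
      _ = (2 * Real.log X) * ∑ n ∈ (Icc 1 N).filter (fun n : ℕ => X < n),
            ∏ j, tau (((h j).1 * (n : ℤ) + (h j).2).natAbs) ^ (C + 1) := by
          rw [Finset.sum_filter, Finset.mul_sum]
          refine Finset.sum_congr rfl fun n _ => ?_
          split_ifs <;> simp
      _ ≤ _ := mul_le_mul_of_nonneg_left hmo (by positivity)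
  clear_value R
  calc ∑ q ∈ T, tau (Pr q) ^ C * |EPhi X (W * Pr q) (bq q)|
      ≤ ∑ q ∈ T, tau (Pr q) ^ C * (∑ n ∈ (Icc 1 N).filter (fun n => n ≡ bq q [MOD (W * Pr q)]),
          Phi (n / X) * ArithmeticFunction.vonMangoldt n +
          (1 / (Nat.totient (W * Pr q) : ℝ)) * MM) := by
        refine Finset.sum_le_sum fun q _ => ?_
        exact mul_le_mul_of_nonneg_left (EPhi_le _ _ _) (pow_nonneg (tau_nonneg _) _)
    _ = _ := by simp only [mul_add, Finset.sum_add_distrib]
    _ ≤ (2 * Real.log X) * (X * (Real.log X) ^ C1) +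
        (1 + Real.log X) ^ R * (X * (6 * Real.log X)) := add_le_add hpart1 hpart2
    _ ≤ X * (Real.log X) ^ (C1 + R + R + 8) := by
        set L := Real.log X
        have hL1 : 1 ≤ L := by linarith
        have h1 : (2 * L) * L ^ C1 ≤ L ^ (C1 + R + R + 7) := by
          calc (2 * L) * L ^ C1 ≤ (L * L) * L ^ C1 := by
                apply mul_le_mul_of_nonneg_right _ (by positivity)
                apply mul_le_mul_of_nonneg_right (by linarith) (by positivity)
            _ = L ^ (C1 + 2) := by ring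
            _ ≤ L ^ (C1 + R + R + 7) := pow_le_pow_right₀ hL1 (by omega)
        have h2 : (1 + L) ^ R * (6 * L) ≤ L ^ (C1 + R + R + 7) := by
          calc (1 + L) ^ R * (6 * L) ≤ (L ^ 2) ^ R * (L ^ 2 * L) := by
                apply mul_le_mul _ _ (by positivity) (by positivity)
                · apply pow_le_pow_left₀ (by positivity)
                  nlinarith
                · apply mul_le_mul_of_nonneg_right _ (by positivity)
                  nlinarith
            _ = L ^ (R + R + 3) := by ring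
            _ ≤ L ^ (C1 + R + R + 7) := pow_le_pow_right₀ hL1 (by omega)
        calc (2 * L) * (X * L ^ C1) + (1 + L) ^ R * (X * (6 * L))
            = X * ((2 * L) * L ^ C1 + (1 + L) ^ R * (6 * L)) := by ring
          _ ≤ X * (L ^ (C1 + R + R + 7) + L ^ (C1 + R + R + 7)) :=
              mul_le_mul_of_nonneg_left (add_le_add h1 h2) hXp.le
          _ = X * (2 * L ^ (C1 + R + R + 7)) := by ring
          _ ≤ X * (L * L ^ (C1 + R + R + 7)) := by
              apply mul_le_mul_of_nonneg_left _ hXp.le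
              apply mul_le_mul_of_nonneg_right (by linarith) (by positivity)
          _ = X * L ^ (C1 + R + R + 8) := by rw [← pow_succ']

end Pool.Agent.Y826.ZG.Y950
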