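import Pool.Agent.Y950.Z.ZZ1
import Pool.Agent.Y826.ZG.Y950.ZZ3
import Pool.Agent.H95R2.BG.BV
import Pool.Agent.H95R2.BG.S2

/-! Project Y826/Z, job ZZ: all dyadic boxes and divisor weights, `S_ZZ` from `S_Z`. -/

set_option autoImplicit false

open Finset Filter

namespace Pool.Agent.Y826.ZG.Y950

open Pool.Agent.Y950.Z

open Pool.Agent.Y826.Z hiding Cd dl Lc Du SS Soff Hyp Cls
open Pool.Agent.Y826.ZL (Cd dl)
open Pool.Agent.H378R2 (EPhi Phi)

lemma GoodT_mono {K : ℕ} {δ δ' : ℝ} {t : Fin K → ℝ} (hd : δ' ≤ δ) (hG : GoodT δ t) :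
    GoodT δ' t := by
  intro x hx hs ν h1 h2
  obtain ⟨g, hg⟩ := hG x (fun j => ⟨by linarith [(hx j).1], (hx j).2⟩) (by linarith) ν
    (by linarith) (by linarith)
  refine ⟨g, fun y hy η hη => ?_⟩
  obtain ⟨a1, a2, a3, a4, a5⟩ := hg y hy η hη
  exact ⟨by linarith, by linarith, by linarith, by linarith, by linarith⟩

lemma bq_coprime {K : ℕ} {h : Fin K → ℤ × ℤ} {W b : ℕ} (hyp : Hyp h W b)
    {bq : (Fin K → ℕ) → ℕ} (hbq : Cls h W b bq) {q : Fin K → ℕ} (hq : Squarefree (rd W * Pr q)) :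
    (bq q).Coprime (W * Pr q) := by
  obtain ⟨h1, h2⟩ := (hbq q hq (bq q)).1 rfl
  have hc : W.Coprime (Pr q) := cop_of_sqf hq
  apply Nat.Coprime.mul_right
  · rw [Nat.coprime_iff_gcd_eq_one, h1.gcd_eq]
    exact hyp.bW
  · apply Nat.Coprime.prod_right
    intro j _
    apply Nat.coprime_of_dvd
    intro p hp hp1 hp2
    have hpPr : p ∣ Pr q := hp2.trans (Finset.dvd_prod_of_mem _ (mem_univ j))
    have hpW : ¬ p ∣ W := by
      intro hpW
      have := Nat.dvd_gcd hpW hpPr
      rw [Nat.coprime_iff_gcd_eq_one.1 hc] at this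
      exact hp.one_lt.ne' (Nat.dvd_one.1 this)
    apply hyp.h1 p hp hpW j
    have h3 : (p : ℤ) ∣ (h j).1 * (bq q : ℤ) + (h j).2 := (Int.natCast_dvd_natCast.2 hp2).trans (h2 j)
    exact (dvd_add_right (dvd_mul_of_dvd_right (Int.natCast_dvd_natCast.2 hp1) _)).1 h3

/-- the dyadic box of a positive integer -/
lemma box_lt {q : ℕ} (hq : 1 ≤ q) : (2 : ℝ) ^ (Nat.clog 2 q) / 2 < q := by
  rcases Nat.lt_or_ge 1 q with h | h
  · have h1 := Nat.pow_pred_clog_lt_self (b := 2) (by norm_num) h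
    have h2 : 0 < Nat.clog 2 q := Nat.clog_pos (by norm_num) h
    obtain ⟨c, hc⟩ : ∃ c, Nat.clog 2 q = c + 1 := ⟨_, (Nat.succ_pred_eq_of_pos h2).symm⟩
    rw [hc] at h1 ⊢
    rw [Nat.pred_succ] at h1
    have h3 : ((2 ^ c : ℕ) : ℝ) < q := by exact_mod_cast h1
    push_cast at h3
    rw [pow_succ]
    linarith
  · have : q = 1 := by omega
    subst this
    simp
    norm_num

lemma le_box (q : ℕ) : (q : ℝ) ≤ 2 * ((2 : ℝ) ^ (Nat.clog 2 q) / 2) := by
  have h := Nat.le_pow_clog (b := 2) (by norm_num) q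
  have h2 : (q : ℝ) ≤ ((2 ^ Nat.clog 2 q : ℕ) : ℝ) := by exact_mod_cast h
  push_cast at h2
  linarith

lemma clog_le {q : ℕ} (hq : 1 ≤ q) {X : ℝ} (hqX : (q : ℝ) ≤ X) :
    Nat.clog 2 q ≤ ⌊1 + 2 * Real.log X⌋₊ := by
  apply Nat.le_floor
  have h1 := box_lt hq
  have hq0 : (0 : ℝ) < q := by exact_mod_cast hq
  have h2 : Real.log ((2 : ℝ) ^ (Nat.clog 2 q) / 2) ≤ Real.log X :=
    Real.log_le_log (by positivity) (h1.le.trans hqX)
  rw [Real.log_div (by positivity) (by norm_num), Real.log_pow] at h2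
  have h3 : (1 / 2 : ℝ) ≤ Real.log 2 := by
    have := Real.log_two_gt_d9
    linarith
  rcases le_or_gt ((Nat.clog 2 q : ℝ)) 1 with h4 | h4
  · have : 0 ≤ Real.log X := Real.log_nonneg (le_trans (by exact_mod_cast hq) hqX)
    linarith
  · nlinarith

theorem zz (hZ : S_Z) : S_ZZ := by
  classical
  intro K h W b hyp t ht0 ht hG bq hbq A C
  obtain ⟨δ0, hδ0, hG0⟩ := hG
  set δ : ℝ := min δ0 (1 / 10) with hδdef
  have hδ : 0 < δ := lt_min hδ0 (by norm_num)
  have hδ1 : δ ≤ 1 / 10 := min_le_right _ _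
  have hGδ : GoodT δ t := GoodT_mono (min_le_left _ _) hG0
  obtain ⟨C', htriv⟩ := triv_bound h W b hyp (2 * C)
  have hgrp := groupOK_of_good hδ hGδ
  have hbox := hZ K h W b hyp (δ / 4) (by positivity) (2 * (A + 1) + C' + 2 * K)
  have hbv := H95R2.BG.bv_tent W hyp.wpos (1 / 2 - δ / 2) (by linarith) (K + C) (A + 1)
  have e4 : ∀ᶠ X : ℝ in atTop, (2 : ℝ) ^ K ≤ X ^ (δ / 2) :=
    (tendsto_rpow_atTop (by positivity)).eventually_ge_atTop _
  filter_upwards [eventually_gt_atTop 1, htriv, hgrp, hbox, hbv, e4,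
    Real.tendsto_log_atTop.eventually_ge_atTop 3] with X hX1 htriv hgrp hbox hbv hX4 hL
  have hX0 : 0 < X := by linarith
  have hL0 : 0 < Real.log X := by linarith
  set SA := (Fintype.piFinset (fun j => Icc 1 ⌊X ^ (t j)⌋₊)).filter
    (fun q => Squarefree (rd W * Pr q)) with hSA
  have hq1 : ∀ q ∈ SA, ∀ j, 1 ≤ q j ∧ (q j : ℝ) ≤ X ^ t j := by
    intro q hq j
    rw [hSA, Finset.mem_filter, Fintype.mem_piFinset] at hq
    have := hq.1 j
    rw [mem_Icc] at this
    exact ⟨this.1, (Nat.le_floor_iff (by positivity)).1 this.2⟩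
  have hsf : ∀ q ∈ SA, Squarefree (rd W * Pr q) := fun q hq => (Finset.mem_filter.1 hq).2
  have hPrX : ∀ q ∈ SA, (Pr q : ℝ) ≤ X ^ (27 / 50 : ℝ) := by
    intro q hq
    unfold Pr
    push_cast
    calc ∏ j, (q j : ℝ) ≤ ∏ j, X ^ t j :=
          Finset.prod_le_prod (fun j _ => Nat.cast_nonneg _) fun j _ => (hq1 q hq j).2
      _ = X ^ (∑ j, t j) := by rw [Real.rpow_sum_of_pos hX0]
      _ ≤ X ^ (27 / 50 : ℝ) := Real.rpow_le_rpow_of_exponent_le hX1.le ht
  have hPrX' : ∀ q ∈ SA, (Pr q : ℝ) ≤ X := by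
    intro q hq
    refine (hPrX q hq).trans ?_
    calc X ^ (27 / 50 : ℝ) ≤ X ^ (1 : ℝ) := Real.rpow_le_rpow_of_exponent_le hX1.le (by norm_num)
      _ = X := Real.rpow_one X
  set S1 := SA.filter (fun q => (Pr q : ℝ) ≤ X ^ (1 / 2 - δ / 2)) with hS1
  set S2 := SA.filter (fun q => ¬ (Pr q : ℝ) ≤ X ^ (1 / 2 - δ / 2)) with hS2
  rw [← Finset.sum_filter_add_sum_filter_not SA (fun q => (Pr q : ℝ) ≤ X ^ (1 / 2 - δ / 2))]
  -- small moduli
  have hsmall : ∑ q ∈ S1, tau (Pr q) ^ C * |EPhi X (W * Pr q) (bq q)| ≤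
      X / (Real.log X) ^ (A + 1) := by
    obtain ⟨B, hB1, hB2⟩ := H95R2.BG.S2.worst X W hyp.wpos
    calc ∑ q ∈ S1, tau (Pr q) ^ C * |EPhi X (W * Pr q) (bq q)|
        ≤ ∑ q ∈ S1, tau (Pr q) ^ C * |EPhi X (W * Pr q) (B (Pr q))| := by
          refine Finset.sum_le_sum fun q hq => ?_
          rw [hS1, Finset.mem_filter] at hq
          apply mul_le_mul_of_nonneg_left _ (pow_nonneg (tau_nonneg _) _)
          apply hB2
          · exact Nat.one_le_iff_ne_zero.2 ((hsf q hq.1).of_mul_right).ne_zero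
          · exact bq_coprime hyp hbq (hsf q hq.1)
      _ ≤ ∑ m ∈ (Icc 1 ⌊X ^ (1 / 2 - δ / 2)⌋₊).filter (fun q => Squarefree q),
            tau m ^ K * (tau m ^ C * |EPhi X (W * m) (B m)|) := by
          apply fiber_le S1 _ _ _ (fun m => tau m ^ C * |EPhi X (W * m) (B m)|)
            (fun m => mul_nonneg (pow_nonneg (tau_nonneg _) _) (abs_nonneg _))
          · intro m hm
            rw [Finset.mem_filter] at hm
            exact hm.2.ne_zero
          · intro q hq
            rw [hS1, Finset.mem_filter] at hq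
            have h1 : Squarefree (Pr q) := (hsf q hq.1).of_mul_right
            rw [Finset.mem_filter, mem_Icc]
            exact ⟨⟨Nat.one_le_iff_ne_zero.2 h1.ne_zero, Nat.le_floor hq.2⟩, h1⟩
      _ = ∑ m ∈ (Icc 1 ⌊X ^ (1 / 2 - δ / 2)⌋₊).filter (fun q => Squarefree q),
            (m.divisors.card : ℝ) ^ (K + C) * |EPhi X (W * m) (B m)| := by
          refine Finset.sum_congr rfl fun m _ => ?_
          rw [← mul_assoc, ← pow_add]
          rfl
      _ ≤ X / (Real.log X) ^ (A + 1) := hbv B hB1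
  -- the boxes
  set m := ⌊1 + 2 * Real.log X⌋₊ with hm
  set BI := Fintype.piFinset (fun _ : Fin K => range (m + 1)) with hBI
  have hBIcard : (BI.card : ℝ) ≤ (Real.log X) ^ (2 * K) := by
    rw [hBI, Fintype.card_piFinset_const, card_range]
    push_cast
    rw [pow_mul]
    apply pow_le_pow_left₀ (by positivity)
    have : (m : ℝ) ≤ 1 + 2 * Real.log X := Nat.floor_le (by positivity)
    nlinarith
  have hlarge1 : ∑ q ∈ S2, |EPhi X (W * Pr q) (bq q)| ≤
      (Real.log X) ^ (2 * K) * (X / (Real.log X) ^ (2 * (A + 1) + C' + 2 * K)) := by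
    have hmaps : ∀ q ∈ S2, (fun j => Nat.clog 2 (q j)) ∈ BI := by
      intro q hq
      rw [hS2, Finset.mem_filter] at hq
      rw [hBI, Fintype.mem_piFinset]
      intro j
      rw [mem_range]
      have h1 := (hq1 q hq.1 j).1
      have h2 : (q j : ℝ) ≤ X := by
        refine le_trans ?_ (hPrX' q hq.1)
        exact_mod_cast Nat.le_of_dvd (Nat.pos_of_ne_zero ((hsf q hq.1).of_mul_right).ne_zero)
          (Finset.dvd_prod_of_mem _ (mem_univ j))
      exact Nat.lt_succ_of_le (clog_le h1 h2)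
    rw [← Finset.sum_fiberwise_of_maps_to hmaps]
    calc ∑ i ∈ BI, ∑ q ∈ S2.filter (fun q => (fun j => Nat.clog 2 (q j)) = i),
          |EPhi X (W * Pr q) (bq q)|
        ≤ ∑ i ∈ BI, X / (Real.log X) ^ (2 * (A + 1) + C' + 2 * K) := by
          refine Finset.sum_le_sum fun i _ => ?_
          rcases (S2.filter (fun q => (fun j => Nat.clog 2 (q j)) = i)).eq_empty_or_nonempty with
            he | ⟨q0, hq0⟩
          · rw [he, Finset.sum_empty]
            positivity
          · rw [Finset.mem_filter, hS2, Finset.mem_filter] at hq0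
            obtain ⟨⟨hq0A, hq0b⟩, hq0i⟩ := hq0
            have hQlt : ∀ j, (2 : ℝ) ^ (i j) / 2 < q0 j := by
              intro j
              rw [← hq0i]
              exact box_lt (hq1 q0 hq0A j).1
            have hQle : ∀ j, (q0 j : ℝ) ≤ 2 * ((2 : ℝ) ^ (i j) / 2) := by
              intro j
              rw [← hq0i]
              exact le_box _
            have hprodle : ∏ j, (2 : ℝ) ^ (i j) / 2 ≤ Pr q0 := by
              unfold Pr
              push_cast
              exact Finset.prod_le_prod (fun j _ => by positivity) fun j _ => (hQlt j).le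
            apply hbox (fun j => (2 : ℝ) ^ (i j) / 2) (fun j => by positivity)
            · refine hprodle.trans ((hPrX q0 hq0A).trans ?_)
              exact Real.rpow_le_rpow_of_exponent_le hX1.le (by norm_num)
            · apply hgrp
              · intro j
                have : (1 : ℝ) ≤ 2 ^ (i j) := one_le_pow₀ (by norm_num)
                linarith
              · intro j
                exact (hQlt j).le.trans (hq1 q0 hq0A j).2
              · have h1 : (Pr q0 : ℝ) ≤ 2 ^ K * ∏ j, (2 : ℝ) ^ (i j) / 2 := by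
                  calc (Pr q0 : ℝ) = ∏ j, (q0 j : ℝ) := by unfold Pr; push_cast; rfl
                    _ ≤ ∏ j, 2 * ((2 : ℝ) ^ (i j) / 2) :=
                      Finset.prod_le_prod (fun j _ => Nat.cast_nonneg _) fun j _ => hQle j
                    _ = 2 ^ K * ∏ j, (2 : ℝ) ^ (i j) / 2 := by
                      rw [Finset.prod_mul_distrib, Finset.prod_const, Finset.card_univ,
                        Fintype.card_fin]
                have h2 : X ^ (1 / 2 - δ / 2) < 2 ^ K * ∏ j, (2 : ℝ) ^ (i j) / 2 :=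
                  lt_of_lt_of_le (not_le.1 hq0b) h1
                have h3 : X ^ (1 / 2 - δ / 2) = X ^ (δ / 2) * X ^ (1 / 2 - δ) := by
                  rw [← Real.rpow_add hX0]
                  congr 1
                  ring
                have hP0 : 0 < ∏ j, (2 : ℝ) ^ (i j) / 2 := Finset.prod_pos fun j _ => by positivity
                have h4 : X ^ (δ / 2) * X ^ (1 / 2 - δ) < X ^ (δ / 2) * ∏ j, (2 : ℝ) ^ (i j) / 2 := by
                  rw [← h3]
                  exact lt_of_lt_of_le h2 (mul_le_mul_of_nonneg_right hX4 hP0.le)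
                exact (lt_of_mul_lt_mul_left h4 (by positivity)).le
            · exact hbq
            · intro q hq
              rw [Finset.mem_filter, hS2, Finset.mem_filter] at hq
              obtain ⟨⟨hqA, -⟩, hqi⟩ := hq
              refine ⟨hsf q hqA, fun j => ?_⟩
              rw [← hqi]
              exact ⟨box_lt (hq1 q hqA j).1, le_box _⟩
      _ = BI.card * (X / (Real.log X) ^ (2 * (A + 1) + C' + 2 * K)) := by
          rw [Finset.sum_const, nsmul_eq_mul]
      _ ≤ _ := mul_le_mul_of_nonneg_right hBIcard (by positivity)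
  have hlarge2 : ∑ q ∈ S2, tau (Pr q) ^ (2 * C) * |EPhi X (W * Pr q) (bq q)| ≤
      X * (Real.log X) ^ C' := by
    apply htriv bq hbq
    intro q hq
    rw [hS2, Finset.mem_filter] at hq
    exact ⟨hsf q hq.1, hPrX' q hq.1⟩
  have hlarge : ∑ q ∈ S2, tau (Pr q) ^ C * |EPhi X (W * Pr q) (bq q)| ≤
      X / (Real.log X) ^ (A + 1) := by
    have hcs := Finset.sum_mul_sq_le_sq_mul_sq S2
      (fun q => tau (Pr q) ^ C * Real.sqrt |EPhi X (W * Pr q) (bq q)|)
      (fun q => Real.sqrt |EPhi X (W * Pr q) (bq q)|)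
    have e1 : ∀ q : Fin K → ℕ, tau (Pr q) ^ C * Real.sqrt |EPhi X (W * Pr q) (bq q)| *
        Real.sqrt |EPhi X (W * Pr q) (bq q)| = tau (Pr q) ^ C * |EPhi X (W * Pr q) (bq q)| := by
      intro q
      rw [mul_assoc, Real.mul_self_sqrt (abs_nonneg _)]
    have e2 : ∀ q : Fin K → ℕ, (tau (Pr q) ^ C * Real.sqrt |EPhi X (W * Pr q) (bq q)|) ^ 2 =
        tau (Pr q) ^ (2 * C) * |EPhi X (W * Pr q) (bq q)| := by
      intro q
      rw [mul_pow, Real.sq_sqrt (abs_nonneg _), ← pow_mul, mul_comm C 2]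
    simp only [e1, e2, Real.sq_sqrt (abs_nonneg _)] at hcs
    have h0 : 0 ≤ ∑ q ∈ S2, |EPhi X (W * Pr q) (bq q)| := Finset.sum_nonneg fun _ _ => abs_nonneg _
    have h5 : (∑ q ∈ S2, tau (Pr q) ^ C * |EPhi X (W * Pr q) (bq q)|) ^ 2 ≤
        (X / (Real.log X) ^ (A + 1)) ^ 2 := by
      refine hcs.trans ?_
      calc (∑ q ∈ S2, tau (Pr q) ^ (2 * C) * |EPhi X (W * Pr q) (bq q)|) *
            ∑ q ∈ S2, |EPhi X (W * Pr q) (bq q)|
          ≤ (X * (Real.log X) ^ C') *
            ((Real.log X) ^ (2 * K) * (X / (Real.log X) ^ (2 * (A + 1) + C' + 2 * K))) :=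
            mul_le_mul hlarge2 hlarge1 h0 (by positivity)
        _ = (X / (Real.log X) ^ (A + 1)) ^ 2 := by
            rw [div_pow, ← pow_mul, pow_add, pow_add]
            field_simp
            ring
    exact (sq_le_sq₀ (Finset.sum_nonneg fun q _ =>
      mul_nonneg (pow_nonneg (tau_nonneg _) _) (abs_nonneg _)) (by positivity)).1 h5
  calc _ ≤ X / (Real.log X) ^ (A + 1) + X / (Real.log X) ^ (A + 1) := add_le_add hsmall hlarge
    _ = (X / (Real.log X) ^ A) * (2 / Real.log X) := by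
        rw [pow_succ]
        field_simp
        ring
    _ ≤ (X / (Real.log X) ^ A) * 1 := by
        apply mul_le_mul_of_nonneg_left _ (by positivity)
        rw [div_le_one hL0]
        linarith
    _ = X / (Real.log X) ^ A := mul_one _

end Pool.Agent.Y826.ZG.Y950
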